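import Mathlib
import Pool.Agent.Results.MP_c862d8_co.TwoElementSets

/-!
# The value of `ν_±(ℤ_n, 2, h)`

`ν_±(ℤ_n, 2, h) = c(h,2) = 4h` for every `n ≥ (h+1)^2` when `h` is even or `n` is odd, and for
every `n ≥ (h+1)(h+2)` when `h` is odd and `n` is even; for all smaller `n` it is at most `4h-1`.
-/

namespace Pool.Agent.Results.MP_16712d_co.TwoElementValue

open Pool.Agent.Results.MP_824cb5_co.TwoElements
open Pool.Agent.Results.MP_c862d8_co.TwoElementSets

/-- The value is at most `4h`. -/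
lemma nu_le {n h : ℕ} (hh : 1 ≤ h) : nu n 2 h ≤ 4 * h := by
  by_cases H : HasBh (ZMod n) h 2
  · by_cases hne : {k | ∃ a : Fin 2 → ZMod n, Function.Injective a ∧ k = (hpm h a).ncard}.Nonempty
    · apply csSup_le hne
      rintro k ⟨a, -, rfl⟩
      exact ncard_le hh a
    · rw [Set.not_nonempty_iff_eq_empty] at hne
      unfold nu
      rw [hne]
      simp
  · exact ((nu_lt_iff hh).2 H).le

/-- The threshold for a two-element `B_h` set in `ℤ_n`. -/
def threshold (n h : ℕ) : ℕ := if Odd h ∧ Even n then (h + 1) * (h + 2) else (h + 1) ^ 2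

lemma hasBh_iff {n h : ℕ} (hn : 1 ≤ n) (hh : 1 ≤ h) :
    HasBh (ZMod n) h 2 ↔ threshold n h ≤ n := by
  have R := Pool.Agent.Results.MP_824cb5_co.TwoElements.result
  unfold threshold
  split_ifs with hc
  · exact R.2.2 n h hn hc.1 hc.2
  · apply R.2.1 n h hn hh
    rw [not_and_or, Nat.not_odd_iff_even, Nat.not_even_iff_odd] at hc
    exact hc

/-- `ν_±(ℤ_n, 2, h) = c(h,2) = 4h` when `n` is at least the threshold `(h+1)^2` (`h` even or `n`
odd), resp. `(h+1)(h+2)` (`h` odd and `n` even); otherwise `ν_±(ℤ_n, 2, h) ≤ min(n, 4h - 1)`. -/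
theorem result (n h : ℕ) (hn : 2 ≤ n) (hh : 2 ≤ h) :
    (threshold n h ≤ n → nu n 2 h = c h 2 ∧ c h 2 = 4 * h) ∧
    (n < threshold n h → nu n 2 h ≤ min n (4 * h - 1)) := by
  constructor
  · intro hle
    have H := (hasBh_iff (by omega) (by omega)).2 hle
    have h1 : ¬ nu n 2 h < 4 * h := fun h => (nu_lt_iff (by omega)).1 h H
    have h2 := nu_le (n := n) (h := h) (by omega)
    refine ⟨?_, c_two hh⟩
    rw [c_two hh]
    omega
  · intro hlt
    have H : ¬ HasBh (ZMod n) h 2 := fun H =>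
      absurd ((hasBh_iff (by omega) (by omega)).1 H) (not_le.2 hlt)
    have h1 := (nu_lt_iff (n := n) (by omega)).2 H
    refine le_min ?_ (by omega)
    haveI : NeZero n := ⟨by omega⟩
    by_cases hne : {k | ∃ a : Fin 2 → ZMod n, Function.Injective a ∧ k = (hpm h a).ncard}.Nonempty
    · apply csSup_le hne
      rintro k ⟨a, -, rfl⟩
      calc (hpm h a).ncard ≤ (Set.univ : Set (ZMod n)).ncard :=
            Set.ncard_le_ncard (Set.subset_univ _) (Set.toFinite _)
        _ = n := by rw [Set.ncard_univ, Nat.card_zmod]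
    · rw [Set.not_nonempty_iff_eq_empty] at hne
      unfold nu
      rw [hne]
      simp

end Pool.Agent.Results.MP_16712d_co.TwoElementValue
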